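import Pool.Agent.Lib_fca3ff.Upper

set_option autoImplicit false

/-!
# MP_fca3ff_lc: the Weihrauch degree of the one-dimensional Cantor manifold theorem

`CMT 1` is the case `n = 1` of the problem: given, by negative information, a closed subset `X` of
the Hilbert cube of covering dimension at least `1`, find, by negative information, a closed
`Y ⊆ X` of covering dimension at least `1` such that no closed set of dimension at most `-1`
(that is, the empty set) partitions `Y`.  It is Weihrauch equivalent to the product of closed
choice on the natural numbers and closed choice on Cantor space, which is the degree of closed
choice on the real line.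
-/

namespace Pool.Agent.Results.MP_fca3ff_lc.CantorOne

open Pool.Agent.CMTW

/-- `CMT_1` is Weihrauch equivalent to `C_ℕ × C_{2^ℕ}`. -/
theorem result : (CMT 1).WEquiv (CN.prod CCantor) := cmt_one

end Pool.Agent.Results.MP_fca3ff_lc.CantorOne
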