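import Pool.Agent.Lib_fca3ff.LowerN
import Pool.Agent.Lib_fca3ff.UpperLim
import Pool.Agent.Lib_fca3ff.NotLim
import Pool.Agent.Lib_fca3ff.NotCR

set_option autoImplicit false

/-!
# MP_fca3ff_lc: the position of the Cantor manifold theorem for `n ≥ 2`

For every `n ≥ 2` the Weihrauch degree of `CMT_n` lies strictly between the degree of closed choice
on the real line (which is `C_ℕ × C_{2^ℕ}`) and the degree of the limit operation `lim`.  Both
inequalities are strict even for topological (continuous) Weihrauch reducibility.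
-/

namespace Pool.Agent.Results.MP_fca3ff_lc.StrictBounds

open Pool.Agent.CMTW

/-- `C_ℕ × C_{2^ℕ} <_W CMT_n <_W lim` for all `n ≥ 2`, strictly even in the topological sense. -/
theorem result (n : ℕ) (hn : 2 ≤ n) :
    ((CN.prod CCantor).WLE (CMT n) ∧ ¬ (CMT n).TLE (CN.prod CCantor)) ∧
      ((CMT n).WLE Lim ∧ ¬ Lim.TLE (CMT n)) :=
  ⟨⟨lowerN (by omega), not_cmt_tle hn⟩, upperLim (by omega), not_lim_tle (by omega)⟩

end Pool.Agent.Results.MP_fca3ff_lc.StrictBounds
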